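import Pool.Agent.Lib.MP_bae66e_nt.Mg.G073
import Pool.Agent.Lib.MP_bae66e_nt.Mg.G069

/-!
# LP/F6b: patterns at the scale `L(m)` if all nonempty windows overlap
-/

set_option autoImplicit false

open Finset Filter Topology

namespace Pool.Agent.Lib.MP_bae66e_nt.LP

open Pool.Agent.Lib.MP_bae66e_nt.LL

private lemma F6b_transfer (X H : ℕ) (ε : ℝ) (hε : 0 ≤ ε) (P : ℤ → Prop) (Q : ℕ → Prop)
    [DecidablePred P] [DecidablePred Q]
    (h : ∀ m : ℕ, 1 ≤ m → ε * X ≤ m → m + H ≤ X → P (m : ℤ) → Q m) :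
    (((Finset.Ioc (0 : ℤ) (X : ℤ)).filter P).card : ℝ) ≤
      (((Finset.Icc 1 X).filter Q).card : ℝ) + ε * X + H := by
  have hsub : (Finset.Ioc (0 : ℤ) (X : ℤ)).filter P ⊆
      ((Finset.Icc 1 X).filter Q).image (fun m : ℕ => (m : ℤ)) ∪
        (Finset.Ico 1 ⌈ε * X⌉₊).image (fun m : ℕ => (m : ℤ)) ∪
        Finset.Ioc ((X : ℤ) - H) X := by
    intro m hm
    rw [Finset.mem_filter, Finset.mem_Ioc] at hm
    obtain ⟨⟨h0, h1⟩, hP⟩ := hm
    obtain ⟨k, rfl⟩ := Int.eq_ofNat_of_zero_le h0.le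
    rw [Finset.mem_union, Finset.mem_union, Finset.mem_image, Finset.mem_image, Finset.mem_Ioc]
    have hk1 : 1 ≤ k := by omega
    by_cases h2 : k + H ≤ X
    · left
      by_cases h3 : ε * X ≤ k
      · left
        refine ⟨k, Finset.mem_filter.2 ⟨Finset.mem_Icc.2 ⟨hk1, by omega⟩, h k hk1 h3 h2 hP⟩, rfl⟩
      · right
        refine ⟨k, Finset.mem_Ico.2 ⟨hk1, ?_⟩, rfl⟩
        rw [Nat.lt_ceil]
        exact not_le.1 h3
    · right
      exact ⟨by omega, h1⟩
  have hc := (Finset.card_le_card hsub).trans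
    ((Finset.card_union_le _ _).trans (Nat.add_le_add_right (Finset.card_union_le _ _) _))
  have h1 : (((Finset.Icc 1 X).filter Q).image (fun m : ℕ => (m : ℤ))).card ≤
      ((Finset.Icc 1 X).filter Q).card := Finset.card_image_le
  have h2 : ((Finset.Ico 1 ⌈ε * X⌉₊).image (fun m : ℕ => (m : ℤ))).card ≤ ⌈ε * X⌉₊ - 1 := by
    refine Finset.card_image_le.trans ?_
    rw [Nat.card_Ico]
  have h3 : (Finset.Ioc ((X : ℤ) - H) X).card = H := by
    rw [Int.card_Ioc]
    omega
  have h4 : ((⌈ε * X⌉₊ - 1 : ℕ) : ℝ) ≤ ε * X := by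
    have h5 : 0 ≤ ε * X := by positivity
    rcases Nat.eq_zero_or_pos ⌈ε * X⌉₊ with h6 | h6
    · rw [h6]
      simpa using h5
    · have h7 := Nat.ceil_lt_add_one h5
      rw [Nat.cast_sub h6]
      push_cast
      linarith
  have h5 : ((Finset.Ioc (0 : ℤ) (X : ℤ)).filter P).card ≤
      ((Finset.Icc 1 X).filter Q).card + (⌈ε * X⌉₊ - 1) + H := by omega
  have h6 : (((Finset.Ioc (0 : ℤ) (X : ℤ)).filter P).card : ℝ) ≤
      (((Finset.Icc 1 X).filter Q).card : ℝ) + ((⌈ε * X⌉₊ - 1 : ℕ) : ℝ) + H := by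
    exact_mod_cast h5
  linarith

open Classical in
/-- **Patterns with overlapping windows** at the scale `L(m) = log m loglog m`. -/
theorem common_Lm {r s : ℕ} (hr : 1 ≤ r) (hs : 1 ≤ s) (h : Fin r → ℕ)
    (hinj : Function.Injective h) (heven : ∀ i, Even (h i))
    (hadm : ∀ p : ℕ, p.Prime → ∃ c : ℕ, ∀ i, ¬ (h i ≡ c [MOD p]))
    (a b : Fin r → Fin s → ℝ) (hab : ∀ i j, 0 ≤ a i j ∧ a i j < b i j)
    (hdis : ∀ i j l, j ≠ l → b i j ≤ a i l ∨ b i l ≤ a i j) (n : Fin r → Fin s → ℕ)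
    (hcom : ∀ i j k l, n i j ≠ 0 → n k l ≠ 0 → a i j < b k l) :
    ∃ c' : ℝ, 0 < c' ∧ ∃ X₀ : ℕ, ∀ X : ℕ, X₀ ≤ X →
      c' * X ≤ (((Finset.Icc 1 X).filter (fun m : ℕ => Even m ∧ ∀ i j,
        NN (m + h i) (a i j * (Real.log m * Real.log (Real.log m)))
          (b i j * (Real.log m * Real.log (Real.log m))) = n i j)).card : ℝ) := by
  obtain ⟨c₀, hc₀, X₁, hX₁⟩ := common_X hr hs h hinj heven hadm a b hab hdis n hcom
  have hr0 : (0 : ℝ) < r := by exact_mod_cast hr
  have hs0 : (0 : ℝ) < s := by exact_mod_cast hs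
  obtain ⟨T, hT⟩ : ∃ T : Fin r × Fin s × Bool → ℝ,
      T = fun x => if x.2.2 then b x.1 x.2.1 else a x.1 x.2.1 := ⟨_, rfl⟩
  have hT0 : ∀ x, 0 ≤ T x := by
    intro x
    rw [hT]
    dsimp only
    split_ifs
    · exact ((hab _ _).1.trans_lt (hab _ _).2).le
    · exact (hab _ _).1
  obtain ⟨η, hη⟩ : ∃ η, η = c₀ / (16 * (r * (s * 2))) := ⟨_, rfl⟩
  have hη0 : 0 < η := by rw [hη]; positivity
  have hηr : (r * (s * 2)) * η = c₀ / 16 := by
    rw [hη]
    field_simp
  have hη1 : η ≤ c₀ / 16 := by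
    have h1 : (1 : ℝ) ≤ r := by exact_mod_cast hr
    have h2 : (1 : ℝ) ≤ s := by exact_mod_cast hs
    have h3 : (1 : ℝ) ≤ r * (s * 2) := by nlinarith
    nlinarith
  obtain ⟨X₂, hX₂⟩ := L_close η (1 / 2) hη0 (by norm_num)
  obtain ⟨H, hH⟩ : ∃ H : ℕ, ∀ i, h i ≤ H :=
    ⟨∑ i, h i, fun i => Finset.single_le_sum (fun _ _ => Nat.zero_le _) (Finset.mem_univ i)⟩
  -- the exceptional sets
  choose Y hY using fun x : Fin r × Fin s × Bool => exceptions_le (T x) (hT0 x) (h x.1) η hη0
  refine ⟨c₀ / 2, by linarith, max (max X₁ X₂) (max (∑ x, Y x) ⌈4 * H / c₀⌉₊),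
    fun X hX => ?_⟩
  have g1 : X₁ ≤ X := (le_max_left _ _).trans ((le_max_left _ _).trans hX)
  have g2 : X₂ ≤ X := (le_max_right _ _).trans ((le_max_left _ _).trans hX)
  have g3 : max (∑ x, Y x) ⌈4 * (H : ℝ) / c₀⌉₊ ≤ X := (le_max_right _ _).trans hX
  have g4 : ∀ x, Y x ≤ X := fun x =>
    (Finset.single_le_sum (f := Y) (fun _ _ => Nat.zero_le _) (Finset.mem_univ x)).trans
      ((le_max_left _ _).trans g3)
  have g7 : ⌈4 * (H : ℝ) / c₀⌉₊ ≤ X := (le_max_right _ _).trans g3
  have g8 : (H : ℝ) ≤ c₀ / 4 * X := by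
    have h1 : 4 * (H : ℝ) / c₀ ≤ X := (Nat.le_ceil _).trans (by exact_mod_cast g7)
    rw [div_le_iff₀ hc₀] at h1
    linarith
  obtain ⟨hL1, hL⟩ := hX₂ X g2
  have hX0 : (0 : ℝ) ≤ X := Nat.cast_nonneg X
  obtain ⟨E, hE⟩ : ∃ E : Fin r × Fin s × Bool → Finset ℕ, E = fun x =>
      (Finset.Icc 1 X).filter (fun m : ℕ => η * X ≤ m ∧ ∃ p q : ℕ, p.Prime ∧ q.Prime ∧
        p + q = m + h x.1 ∧ T x * (Real.log m * Real.log (Real.log m)) < p ∧
        (p : ℝ) ≤ T x * (Real.log X * Real.log (Real.log X))) := ⟨_, rfl⟩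
  have hEx : ∀ x, ((E x).card : ℝ) ≤ η * X := by
    intro x
    rw [hE]
    exact hY x X (g4 x)
  have hnE : ∀ x (m : ℕ), 1 ≤ m → m ≤ X → η * X ≤ m → m ∉ E x →
      ∀ p q : ℕ, p.Prime → q.Prime → p + q = m + h x.1 →
        ¬ (T x * (Real.log m * Real.log (Real.log m)) < p ∧
          (p : ℝ) ≤ T x * (Real.log X * Real.log (Real.log X))) := by
    intro x m h1 h2 h3 h4 p q hp hq hpq h5
    rw [hE] at h4
    exact h4 (Finset.mem_filter.2 ⟨Finset.mem_Icc.2 ⟨h1, h2⟩, h3, p, q, hp, hq, hpq, h5.1, h5.2⟩)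
  -- the comparison
  have key := F6b_transfer X H η hη0.le
    (fun m : ℤ => Even m ∧ ∀ i j, Nw X (a i j) (b i j) (m + h i) = n i j)
    (fun m : ℕ => (Even m ∧ ∀ i j,
        NN (m + h i) (a i j * (Real.log m * Real.log (Real.log m)))
          (b i j * (Real.log m * Real.log (Real.log m))) = n i j) ∨
      (∃ x, m ∈ E x)) (by
      rintro m hm1 hm2 hm3 ⟨he, hN⟩
      by_cases hex : ∃ x, m ∈ E x
      · exact Or.inr hex
      · left
        push Not at hex
        obtain ⟨h1, h2⟩ := hL m hm2 (by omega)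
        have hmX : m ≤ X := by omega
        refine ⟨by exact_mod_cast he, fun i j => ?_⟩
        have hmi : m + h i ≤ X := by
          have := hH i
          omega
        have hL0 : 0 ≤ Real.log X * Real.log (Real.log X) := by linarith
        obtain ⟨ha0, hab0⟩ := hab i j
        have e1 : NN (m + h i) (a i j * (Real.log X * Real.log (Real.log X)))
            (b i j * (Real.log X * Real.log (Real.log X))) = n i j := by
          rw [← Nw_eq_NN X (m + h i) (a i j) (b i j) ha0 hab0.le hmi hL0]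
          push_cast
          exact hN i j
        have s2 := NN_eq_of_segments (m + h i) (a i j * (Real.log X * Real.log (Real.log X)))
          (a i j * (Real.log m * Real.log (Real.log m)))
          (b i j * (Real.log X * Real.log (Real.log X)))
          (b i j * (Real.log m * Real.log (Real.log m))) (mul_le_mul_of_nonneg_left h2 ha0)
          (mul_le_mul_of_nonneg_left h2 (ha0.trans hab0.le))
          (fun p q hp hq hpq => by
            have := hnE (i, j, false) m hm1 hmX hm2 (hex _) p q hp hq hpq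
            rw [hT] at this
            simpa using this)
          (fun p q hp hq hpq => by
            have := hnE (i, j, true) m hm1 hmX hm2 (hex _) p q hp hq hpq
            rw [hT] at this
            simpa using this)
        exact s2.trans e1)
  have hcount : c₀ * X ≤ (((Finset.Ioc (0 : ℤ) (X : ℤ)).filter (fun m : ℤ =>
      Even m ∧ ∀ i j, Nw X (a i j) (b i j) (m + h i) = n i j)).card : ℝ) := by
    refine (hX₁ X g1).trans (Nat.cast_le.2 (Finset.card_le_card fun m hm => ?_))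
    rw [Finset.mem_filter] at hm ⊢
    exact hm
  -- the exceptions
  have hfin : (((Finset.Icc 1 X).filter (fun m : ℕ => (Even m ∧ ∀ i j,
        NN (m + h i) (a i j * (Real.log m * Real.log (Real.log m)))
          (b i j * (Real.log m * Real.log (Real.log m))) = n i j) ∨
      (∃ x, m ∈ E x))).card : ℝ) ≤
      (((Finset.Icc 1 X).filter (fun m : ℕ => Even m ∧ ∀ i j,
        NN (m + h i) (a i j * (Real.log m * Real.log (Real.log m)))
          (b i j * (Real.log m * Real.log (Real.log m))) = n i j)).card : ℝ) + c₀ / 16 * X := by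
    have hsub : (Finset.Icc 1 X).filter (fun m : ℕ => (Even m ∧ ∀ i j,
        NN (m + h i) (a i j * (Real.log m * Real.log (Real.log m)))
          (b i j * (Real.log m * Real.log (Real.log m))) = n i j) ∨
      (∃ x, m ∈ E x)) ⊆
        ((Finset.Icc 1 X).filter (fun m : ℕ => Even m ∧ ∀ i j,
        NN (m + h i) (a i j * (Real.log m * Real.log (Real.log m)))
          (b i j * (Real.log m * Real.log (Real.log m))) = n i j)) ∪
        Finset.univ.biUnion (fun x => E x) := by
      intro m hm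
      rw [Finset.mem_filter] at hm
      rw [Finset.mem_union, Finset.mem_filter, Finset.mem_biUnion]
      rcases hm.2 with h1 | ⟨x, h1⟩
      · exact Or.inl ⟨hm.1, h1⟩
      · exact Or.inr ⟨x, Finset.mem_univ x, h1⟩
    have h1 := (Finset.card_le_card hsub).trans (Finset.card_union_le _ _)
    have h2 : ((Finset.univ.biUnion (fun x => E x)).card : ℝ) ≤ c₀ / 16 * X := by
      have h3 : (Finset.univ.biUnion (fun x => E x)).card ≤ ∑ x, (E x).card :=
        Finset.card_biUnion_le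
      have h4 : ((∑ x, (E x).card : ℕ) : ℝ) ≤ ∑ _x : Fin r × Fin s × Bool, (η * X) := by
        push_cast
        exact Finset.sum_le_sum fun x _ => hEx x
      rw [Finset.sum_const, Finset.card_univ, nsmul_eq_mul] at h4
      simp only [Fintype.card_prod, Fintype.card_fin, Fintype.card_bool, Nat.cast_mul,
        Nat.cast_ofNat] at h4
      have h5 : ((Finset.univ.biUnion (fun x => E x)).card : ℝ) ≤ ((∑ x, (E x).card : ℕ) : ℝ) := by
        exact_mod_cast h3
      have h6 : (r : ℝ) * (s * 2) * (η * X) = (r * (s * 2)) * η * X := by ring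
      rw [h6, hηr] at h4
      linarith
    have h3 : (((Finset.Icc 1 X).filter (fun m : ℕ => (Even m ∧ ∀ i j,
        NN (m + h i) (a i j * (Real.log m * Real.log (Real.log m)))
          (b i j * (Real.log m * Real.log (Real.log m))) = n i j) ∨
      (∃ x, m ∈ E x))).card : ℝ) ≤
      (((Finset.Icc 1 X).filter (fun m : ℕ => Even m ∧ ∀ i j,
        NN (m + h i) (a i j * (Real.log m * Real.log (Real.log m)))
          (b i j * (Real.log m * Real.log (Real.log m))) = n i j)).card : ℝ) +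
        ((Finset.univ.biUnion (fun x => E x)).card : ℝ) := by
      exact_mod_cast h1
    linarith
  have h9 : η * X ≤ c₀ / 16 * X := mul_le_mul_of_nonneg_right hη1 hX0
  linarith

end Pool.Agent.Lib.MP_bae66e_nt.LP
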